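import Pool.Agent.Helper63.Sey3.Goals

/-!
# Many bins are not hit (packet SEY3-SEQ)
-/

open Pool.Agent.Helper41.Girth4 (Pr)

namespace Pool.Agent.Helper22.Sey3

open Classical in
theorem sum_update {I L : Type} [Fintype I] [DecidableEq I] [Fintype L]
    (m : I) (f : (I → L) → ℝ) :
    ∑ ω : I → L, ∑ l : L, f (Function.update ω m l) = Fintype.card L * ∑ ω : I → L, f ω := by
  have hinv : Function.Involutive
      (fun p : (I → L) × L => (Function.update p.1 m p.2, p.1 m)) := by
    rintro ⟨ω, l⟩
    simp
  have h1 : ∑ ω : I → L, ∑ l : L, f (Function.update ω m l)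
      = ∑ p : (I → L) × L, f (Function.update p.1 m p.2) := by
    rw [Fintype.sum_prod_type]
  have h2 : ∑ p : (I → L) × L, f (Function.update p.1 m p.2)
      = ∑ p : (I → L) × L, f p.1 := by
    have := Equiv.sum_comp hinv.toPerm (fun p : (I → L) × L => f p.1)
    rw [← this]
    rfl
  rw [h1, h2, Fintype.sum_prod_type]
  simp [Finset.mul_sum]

theorem exp_sub_one_le {t : ℝ} (h0 : 0 ≤ t) (h1 : t ≤ 1) : Real.exp t - 1 ≤ 2 * t := by
  have h := convexOn_exp.2 (Set.mem_univ (1 : ℝ)) (Set.mem_univ (0 : ℝ)) h0
    (sub_nonneg.2 h1) (by ring)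
  simp only [smul_eq_mul, mul_one, mul_zero, add_zero, Real.exp_zero] at h
  have he := Real.exp_one_lt_d9
  nlinarith

theorem exp_neg_le {x : ℝ} (h0 : 0 ≤ x) (h1 : x ≤ 1 / 2) : Real.exp (-(2 * x)) ≤ 1 - x := by
  rw [Real.exp_neg]
  rw [inv_le_comm₀ (Real.exp_pos _) (by linarith)]
  have h2 := Real.add_one_le_exp (2 * x)
  refine le_trans ?_ h2
  rw [inv_le_iff_one_le_mul₀ (by linarith)]
  nlinarith

/-- The set of the bins which are not hit. -/
noncomputable def U {I L Bn : Type} [Fintype Bn] (hit : I → (I → L) → Bn → Prop)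
    (S : Finset I) (ω : I → L) : Finset Bn := by
  classical
  exact Finset.univ.filter fun b => ∀ i ∈ S, ¬ hit i ω b

theorem mem_U {I L Bn : Type} [Fintype Bn] (hit : I → (I → L) → Bn → Prop)
    (S : Finset I) (ω : I → L) (b : Bn) : b ∈ U hit S ω ↔ ∀ i ∈ S, ¬ hit i ω b := by
  classical
  simp [U]

theorem main {I L Bn : Type} [Fintype I] [DecidableEq I] [Fintype L] [Nonempty L] [Fintype Bn]
    (rk : I → ℕ) (hit : I → (I → L) → Bn → Prop) (ν : ℝ) (hν0 : 0 ≤ ν) (hν : ν ≤ 1 / 4) :
    ∀ (n : ℕ) (S : Finset I), S.card = n → Set.InjOn rk (S : Set I) →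
    (∀ i ∈ S, ∀ ω ω' : I → L, (∀ j, (j ∈ S → rk j ≤ rk i) → ω j = ω' j) →
      ∀ b, hit i ω b → hit i ω' b) →
    (∀ i ∈ S, ∀ ω b b', hit i ω b → hit i ω b' → b = b') →
    (∀ i ∈ S, ∀ ω b, Pr (fun l : L => hit i (Function.update ω i l) b) ≤ ν) →
    ∀ t : ℝ, 0 ≤ t → t ≤ 1 →
    ∑ ω : I → L, Real.exp (-(t * (U hit S ω).card)) ≤
      Fintype.card (I → L) * Real.exp (-(t * (1 - 2 * ν) ^ n * Fintype.card Bn)) := by
  classical
  intro n
  induction n with
  | zero =>
    intro S hS _ _ _ _ t _ _
    have hS0 : S = ∅ := Finset.card_eq_zero.1 hS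
    subst hS0
    have hU : ∀ ω : I → L, U hit ∅ ω = Finset.univ := by
      intro ω
      ext b
      simp [mem_U]
    simp [hU]
  | succ n ih =>
    intro S hS hinj hloc huniq hpr t ht0 ht1
    have hne : S.Nonempty := by
      rw [← Finset.card_pos, hS]
      omega
    obtain ⟨m, hm, hmax⟩ := Finset.exists_max_image S rk hne
    have hlt : ∀ i ∈ S.erase m, rk i < rk m := by
      intro i hi
      have hi2 := Finset.mem_of_mem_erase hi
      have hi3 := Finset.ne_of_mem_erase hi
      refine lt_of_le_of_ne (hmax i hi2) fun h => hi3 (hinj hi2 hm h)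
    -- independence of the label of m
    have hind : ∀ (ω : I → L) (l : L), U hit (S.erase m) (Function.update ω m l)
        = U hit (S.erase m) ω := by
      intro ω l
      ext b
      rw [mem_U, mem_U]
      have hagree : ∀ i ∈ S.erase m, ∀ j, (j ∈ S → rk j ≤ rk i) →
          ω j = Function.update ω m l j := by
        intro i hi j hj
        by_cases hjm : j = m
        · subst hjm
          exact absurd (hj hm) (not_le.2 (hlt i hi))
        · rw [Function.update_of_ne hjm]
      constructor
      · intro h i hi hh
        exact h i hi (hloc i (Finset.mem_of_mem_erase hi) _ _ (hagree i hi) b hh)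
      · intro h i hi hh
        exact h i hi (hloc i (Finset.mem_of_mem_erase hi) _ _
          (fun j hj => (hagree i hi j hj).symm) b hh)
    have hsub : ∀ ω : I → L, U hit S ω ⊆ U hit (S.erase m) ω := by
      intro ω b hb
      rw [mem_U] at hb ⊢
      exact fun i hi => hb i (Finset.mem_of_mem_erase hi)
    -- the number of bins drops by at most one
    have hdrop : ∀ ω : I → L, ((U hit (S.erase m) ω).card : ℝ) ≤ (U hit S ω).card +
        (if ∃ b ∈ U hit (S.erase m) ω, hit m ω b then 1 else 0) := by
      intro ω
      by_cases hex : ∃ b ∈ U hit (S.erase m) ω, hit m ω b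
      · rw [if_pos hex]
        obtain ⟨b, hb, hbm⟩ := hex
        have h1 : U hit (S.erase m) ω ⊆ insert b (U hit S ω) := by
          intro c hc
          rw [Finset.mem_insert]
          by_cases hcb : c = b
          · exact Or.inl hcb
          · right
            rw [mem_U] at hc ⊢
            intro i hi hh
            by_cases him : i = m
            · subst him
              exact hcb (huniq i hi ω c b hh hbm)
            · exact hc i (Finset.mem_erase.2 ⟨him, hi⟩) hh
        have h2 := (Finset.card_le_card h1).trans (Finset.card_insert_le _ _)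
        exact_mod_cast h2
      · rw [if_neg hex, add_zero]
        have h1 : U hit (S.erase m) ω ⊆ U hit S ω := by
          intro c hc
          have hc' := hc
          rw [mem_U] at hc ⊢
          intro i hi hh
          by_cases him : i = m
          · subst him
            exact hex ⟨c, hc', hh⟩
          · exact hc i (Finset.mem_erase.2 ⟨him, hi⟩) hh
        exact_mod_cast Finset.card_le_card h1
    have hLpos : (0 : ℝ) < Fintype.card L := by exact_mod_cast Fintype.card_pos
    -- the average over the label of m
    have hstep : ∀ ω : I → L, ∑ l : L, Real.exp (-(t * (U hit S (Function.update ω m l)).card)) ≤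
        Fintype.card L * Real.exp (-((t * (1 - 2 * ν)) * (U hit (S.erase m) ω).card)) := by
      intro ω
      set X : ℝ := ((U hit (S.erase m) ω).card : ℝ) with hX
      have hX0 : 0 ≤ X := by positivity
      have hpt : ∀ l : L, Real.exp (-(t * (U hit S (Function.update ω m l)).card)) ≤
          Real.exp (-(t * X)) * (1 + (Real.exp t - 1) *
            (if ∃ b ∈ U hit (S.erase m) ω, hit m (Function.update ω m l) b then 1 else 0)) := by
        intro l
        have h1 := hdrop (Function.update ω m l)
        rw [hind ω l, ← hX] at h1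
        by_cases hex : ∃ b ∈ U hit (S.erase m) ω, hit m (Function.update ω m l) b
        · rw [if_pos hex] at h1 ⊢
          have h2 : Real.exp (-(t * X)) * (1 + (Real.exp t - 1) * 1)
              = Real.exp (-(t * X) + t) := by
            rw [Real.exp_add]; ring
          rw [h2]
          apply Real.exp_le_exp.2
          nlinarith
        · rw [if_neg hex] at h1 ⊢
          have h2 : Real.exp (-(t * X)) * (1 + (Real.exp t - 1) * 0)
              = Real.exp (-(t * X)) := by ring
          rw [h2]
          apply Real.exp_le_exp.2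
          nlinarith
      have hcount : ∑ l : L, (if ∃ b ∈ U hit (S.erase m) ω, hit m (Function.update ω m l) b
          then (1 : ℝ) else 0) ≤ ν * X * Fintype.card L := by
        have h1 : ∀ l : L, (if ∃ b ∈ U hit (S.erase m) ω, hit m (Function.update ω m l) b
            then (1 : ℝ) else 0) ≤ ∑ b ∈ U hit (S.erase m) ω,
              (if hit m (Function.update ω m l) b then (1 : ℝ) else 0) := by
          intro l
          by_cases hex : ∃ b ∈ U hit (S.erase m) ω, hit m (Function.update ω m l) b
          · rw [if_pos hex]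
            obtain ⟨b, hb, hbm⟩ := hex
            have := Finset.single_le_sum (s := U hit (S.erase m) ω)
              (f := fun b => if hit m (Function.update ω m l) b then (1 : ℝ) else 0)
              (fun c _ => by split_ifs <;> norm_num) hb
            simpa [hbm] using this
          · rw [if_neg hex]
            exact Finset.sum_nonneg fun c _ => by split_ifs <;> norm_num
        have h2 : ∀ b : Bn, ∑ l : L, (if hit m (Function.update ω m l) b then (1 : ℝ) else 0)
            ≤ ν * Fintype.card L := by
          intro b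
          have h3 := hpr m hm ω b
          rw [Pool.Agent.Helper41.Girth4.Pr_eq_sum, div_le_iff₀ hLpos] at h3
          exact h3
        calc ∑ l : L, (if ∃ b ∈ U hit (S.erase m) ω, hit m (Function.update ω m l) b
            then (1 : ℝ) else 0)
            ≤ ∑ l : L, ∑ b ∈ U hit (S.erase m) ω,
              (if hit m (Function.update ω m l) b then (1 : ℝ) else 0) :=
              Finset.sum_le_sum fun l _ => h1 l
          _ = ∑ b ∈ U hit (S.erase m) ω, ∑ l : L,
              (if hit m (Function.update ω m l) b then (1 : ℝ) else 0) := Finset.sum_comm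
          _ ≤ ∑ _b ∈ U hit (S.erase m) ω, ν * Fintype.card L :=
              Finset.sum_le_sum fun b _ => h2 b
          _ = ν * X * Fintype.card L := by
              rw [Finset.sum_const, nsmul_eq_mul, hX]; ring
      have het : 0 ≤ Real.exp t - 1 := by
        have := Real.add_one_le_exp t
        linarith
      have het2 := exp_sub_one_le ht0 ht1
      calc ∑ l : L, Real.exp (-(t * (U hit S (Function.update ω m l)).card))
          ≤ ∑ l : L, Real.exp (-(t * X)) * (1 + (Real.exp t - 1) *
            (if ∃ b ∈ U hit (S.erase m) ω, hit m (Function.update ω m l) b then 1 else 0)) :=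
            Finset.sum_le_sum fun l _ => hpt l
        _ = Real.exp (-(t * X)) * (Fintype.card L + (Real.exp t - 1) *
            ∑ l : L, (if ∃ b ∈ U hit (S.erase m) ω, hit m (Function.update ω m l) b
              then (1 : ℝ) else 0)) := by
            rw [← Finset.mul_sum, Finset.sum_add_distrib, ← Finset.mul_sum]
            simp
        _ ≤ Real.exp (-(t * X)) * (Fintype.card L + (2 * t) * (ν * X * Fintype.card L)) := by
            apply mul_le_mul_of_nonneg_left _ (Real.exp_pos _).le
            have hS0 : 0 ≤ ∑ l : L, (if ∃ b ∈ U hit (S.erase m) ω,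
                hit m (Function.update ω m l) b then (1 : ℝ) else 0) :=
              Finset.sum_nonneg fun c _ => by split_ifs <;> norm_num
            have := mul_le_mul het2 hcount hS0 (by linarith)
            linarith
        _ = Fintype.card L * (Real.exp (-(t * X)) * (1 + 2 * t * ν * X)) := by ring
        _ ≤ Fintype.card L * (Real.exp (-(t * X)) * Real.exp (2 * t * ν * X)) := by
            apply mul_le_mul_of_nonneg_left _ hLpos.le
            apply mul_le_mul_of_nonneg_left _ (Real.exp_pos _).le
            have := Real.add_one_le_exp (2 * t * ν * X)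
            linarith
        _ = Fintype.card L * Real.exp (-((t * (1 - 2 * ν)) * X)) := by
            rw [← Real.exp_add]
            congr 2
            ring
    have hs0 : 0 ≤ 1 - 2 * ν := by linarith
    have hs1 : 1 - 2 * ν ≤ 1 := by linarith
    have hih := ih (S.erase m) (by rw [Finset.card_erase_of_mem hm, hS]; rfl)
      (hinj.mono (by exact_mod_cast Finset.erase_subset m S))
      (by
        intro i hi ω ω' hag b hb
        exact hloc i (Finset.mem_of_mem_erase hi) ω ω'
          (fun j hj => hag j fun hj2 => hj (Finset.mem_of_mem_erase hj2)) b hb)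
      (fun i hi => huniq i (Finset.mem_of_mem_erase hi))
      (fun i hi => hpr i (Finset.mem_of_mem_erase hi))
      (t * (1 - 2 * ν)) (mul_nonneg ht0 hs0) (mul_le_one₀ ht1 hs0 hs1)
    have h1 := sum_update m fun ω : I → L => Real.exp (-(t * (U hit S ω).card))
    have h2 : Fintype.card L * ∑ ω : I → L, Real.exp (-(t * (U hit S ω).card)) ≤
        Fintype.card L * (Fintype.card (I → L) *
          Real.exp (-(t * (1 - 2 * ν) ^ (n + 1) * Fintype.card Bn))) := by
      rw [← h1]
      calc ∑ ω : I → L, ∑ l : L, Real.exp (-(t * (U hit S (Function.update ω m l)).card))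
          ≤ ∑ ω : I → L, Fintype.card L *
            Real.exp (-((t * (1 - 2 * ν)) * (U hit (S.erase m) ω).card)) :=
            Finset.sum_le_sum fun ω _ => hstep ω
        _ = Fintype.card L * ∑ ω : I → L,
            Real.exp (-((t * (1 - 2 * ν)) * (U hit (S.erase m) ω).card)) := by
            rw [Finset.mul_sum]
        _ ≤ Fintype.card L * (Fintype.card (I → L) *
            Real.exp (-(t * (1 - 2 * ν) * (1 - 2 * ν) ^ n * Fintype.card Bn))) :=
            mul_le_mul_of_nonneg_left hih hLpos.le
        _ = _ := by rw [pow_succ']; ring_nf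
    exact le_of_mul_le_mul_left h2 hLpos

theorem goalSEQ : Pool.Agent.Helper63.Sey3.GoalSEQ := by
  classical
  intro I L Bn _ _ _ _ _ S rk hit ν d hd hinj hν0 hν hloc huniq hpr y
  have hN : (0 : ℝ) < Fintype.card (I → L) := by exact_mod_cast Fintype.card_pos
  have h1 := main rk hit ν hν0 hν S.card S rfl hinj hloc huniq hpr 1 zero_le_one le_rfl
  rw [Pool.Agent.Helper41.Girth4.Pr_eq_sum, div_le_iff₀ hN]
  have hcard : ∀ ω : I → L, (Nat.card {b // ∀ i ∈ S, ¬ hit i ω b} : ℝ)
      = ((U hit S ω).card : ℝ) := by
    intro ω
    rw [Nat.card_eq_fintype_card, Fintype.card_subtype]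
    congr 2
    ext b
    simp [mem_U]
  have h2 : ∀ ω : I → L, (if (Nat.card {b // ∀ i ∈ S, ¬ hit i ω b} : ℝ) ≤ y then (1 : ℝ) else 0)
      ≤ Real.exp y * Real.exp (-(1 * ((U hit S ω).card : ℝ))) := by
    intro ω
    rw [hcard ω, ← Real.exp_add]
    split_ifs with h
    · have := Real.add_one_le_exp (y + -(1 * ((U hit S ω).card : ℝ)))
      linarith
    · exact (Real.exp_pos _).le
  have hx0 : (0 : ℝ) ≤ 2 * ν := by linarith
  have h3 : Real.exp (-(4 * ν * d)) ≤ (1 - 2 * ν) ^ S.card := by
    have h4 := exp_neg_le hx0 (by linarith)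
    calc Real.exp (-(4 * ν * d)) = Real.exp (-(2 * (2 * ν))) ^ d := by
          rw [← Real.exp_nat_mul]
          congr 1
          ring
      _ ≤ (1 - 2 * ν) ^ d := pow_le_pow_left₀ (Real.exp_pos _).le h4 d
      _ ≤ (1 - 2 * ν) ^ S.card := pow_le_pow_of_le_one (by linarith) (by linarith) hd
  calc ∑ ω : I → L, (if (Nat.card {b // ∀ i ∈ S, ¬ hit i ω b} : ℝ) ≤ y then (1 : ℝ) else 0)
      ≤ ∑ ω : I → L, Real.exp y * Real.exp (-(1 * ((U hit S ω).card : ℝ))) :=
        Finset.sum_le_sum fun ω _ => h2 ω
    _ = Real.exp y * ∑ ω : I → L, Real.exp (-(1 * ((U hit S ω).card : ℝ))) := by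
        rw [Finset.mul_sum]
    _ ≤ Real.exp y * (Fintype.card (I → L) *
        Real.exp (-(1 * (1 - 2 * ν) ^ S.card * Fintype.card Bn))) :=
        mul_le_mul_of_nonneg_left h1 (Real.exp_pos _).le
    _ ≤ Real.exp y * (Fintype.card (I → L) *
        Real.exp (-(Real.exp (-(4 * ν * d)) * Fintype.card Bn))) := by
        apply mul_le_mul_of_nonneg_left _ (Real.exp_pos _).le
        apply mul_le_mul_of_nonneg_left _ hN.le
        apply Real.exp_le_exp.2
        have hB : (0 : ℝ) ≤ Fintype.card Bn := by positivity
        have := mul_le_mul_of_nonneg_right h3 hB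
        linarith
    _ = Real.exp (y - Real.exp (-(4 * ν * d)) * Fintype.card Bn) * Fintype.card (I → L) := by
        rw [sub_eq_add_neg, Real.exp_add]
        ring

end Pool.Agent.Helper22.Sey3
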